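import Pool.Agent.Q89.AS.D
set_option autoImplicit false

/-! Smooth windows: the Fresnel transform of a window as a superposition of exponentials. -/

namespace Pool.Agent.Q89.LF

open MeasureTheory Set Complex Filter Topology FourierTransform
open scoped ENNReal NNReal
open Pool.Agent.Y183.LS

/-- windows -/
structure Win (w : ℝ → ℂ) : Prop where
  sm : ContDiff ℝ (⊤ : ℕ∞) w
  cp : HasCompactSupport w

lemma Win.mulX {w : ℝ → ℂ} (h : Win w) : Win (fun v => (v : ℂ) * w v) :=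
  ⟨(ofRealCLM.contDiff).mul h.sm, h.cp.mul_left⟩

lemma Win.der {w : ℝ → ℂ} (h : Win w) : Win (deriv w) := by
  refine ⟨?_, h.cp.deriv⟩
  have h1 := h.sm
  rw [show ((⊤ : ℕ∞) : WithTop ℕ∞) = ((⊤ : ℕ∞) : WithTop ℕ∞) + 1 from rfl,
    contDiff_succ_iff_deriv] at h1
  exact h1.2.2

lemma Win.cont {w : ℝ → ℂ} (h : Win w) : Continuous w := h.sm.continuous

lemma Win.int {w : ℝ → ℂ} (h : Win w) : Integrable w :=
  h.cont.integrable_of_hasCompactSupport h.cp

/-- the Fourier transform of a window -/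
noncomputable def wh (w : ℝ → ℂ) (η : ℝ) : ℂ := ∫ v, w v * ec (-(η * v))

lemma wh_eq (w : ℝ → ℂ) (η : ℝ) : wh w η = 𝓕 w η := by
  rw [Real.fourier_real_eq_integral_exp_smul]
  unfold wh
  congr 1
  ext v
  rw [smul_eq_mul, mul_comm]
  congr 1
  unfold ec
  congr 1
  push_cast
  ring

lemma wh_sch {w : ℝ → ℂ} (h : Win w) : ∃ f : SchwartzMap ℝ ℂ, ∀ η, f η = wh w η := by
  refine ⟨𝓕 (h.cp.toSchwartzMap h.sm), fun η => ?_⟩
  rw [wh_eq, SchwartzMap.fourier_coe]
  rfl

lemma wh_int {w : ℝ → ℂ} (h : Win w) : Integrable (wh w) := by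
  obtain ⟨f, hf⟩ := wh_sch h
  have h2 : (f : ℝ → ℂ) = wh w := funext hf
  rw [← h2]
  exact f.integrable

lemma wh_cont {w : ℝ → ℂ} (h : Win w) : Continuous (wh w) := by
  obtain ⟨f, hf⟩ := wh_sch h
  have h2 : (f : ℝ → ℂ) = wh w := funext hf
  rw [← h2]
  exact f.continuous

/-- the Fresnel transform of the window -/
noncomputable def Aw (w : ℝ → ℂ) (t s : ℝ) : ℂ := ∫ v, w v * ec (t * (v - s) ^ 2)

/-- the multiplication formula with a Gaussian -/
lemma gauss_id {w : ℝ → ℂ} (h : Win w) (b : ℂ) (hb : 0 < b.re) (s : ℝ) :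
    (1 / b ^ (1 / 2 : ℂ)) * ∫ v : ℝ, w v * cexp (-(Real.pi / b) * ((v : ℂ) - s) ^ 2) =
      ∫ η : ℝ, wh w η * cexp (-Real.pi * b * (η : ℂ) ^ 2 + 2 * Real.pi * (I * s) * η) := by
  have hG : Integrable (fun x : ℝ => cexp (-Real.pi * b * (x : ℂ) ^ 2 +
      2 * Real.pi * (I * s) * x)) := by
    have h1 := integrable_cexp_quadratic (b := Real.pi * b) (by
      rw [re_ofReal_mul]
      exact mul_pos Real.pi_pos hb) (2 * Real.pi * (I * s)) 0
    refine h1.congr (ae_of_all _ fun x => ?_)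
    simp only
    congr 1
    ring
  have h1 := VectorFourier.integral_fourierIntegral_smul_eq_flip (L := innerₗ ℝ)
    (μ := volume) (ν := volume) Real.continuous_fourierChar continuous_inner h.int hG
  have h2 : ∀ ξ : ℝ, VectorFourier.fourierIntegral 𝐞 volume (innerₗ ℝ) w ξ = wh w ξ := by
    intro ξ
    rw [wh_eq]
    rfl
  have h3 : ∀ x : ℝ, VectorFourier.fourierIntegral 𝐞 volume (innerₗ ℝ).flip
      (fun x : ℝ => cexp (-Real.pi * b * (x : ℂ) ^ 2 + 2 * Real.pi * (I * s) * x)) x =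
      1 / b ^ (1 / 2 : ℂ) * cexp (-Real.pi / b * (x + I * (I * s)) ^ 2) := by
    intro x
    have h4 := congrFun (fourier_gaussian_pi' hb (I * s)) x
    rw [← h4, flip_innerₗ]
    rfl
  simp only [h2, h3, smul_eq_mul] at h1
  rw [h1, ← integral_const_mul]
  congr 1
  ext v
  have e1 : -(Real.pi : ℂ) / b * (v + I * (I * s)) ^ 2 = -(Real.pi / b) * ((v : ℂ) - s) ^ 2 := by
    have : (v : ℂ) + I * (I * s) = v - s := by
      rw [← mul_assoc, I_mul_I]
      ring
    rw [this]
    ring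
  rw [e1]
  ring

/-- the constant of the representation -/
noncomputable def ga (t : ℝ) : ℂ := (I / (2 * t)) ^ (1 / 2 : ℂ)

lemma ga_norm (t : ℝ) (ht : t ≠ 0) : ‖ga t‖ ≤ |t| ^ (-(1 / 2) : ℝ) := by
  unfold ga
  have htp : 0 < |t| := abs_pos.mpr ht
  have h1 : ‖(I / (2 * (t : ℂ))) ^ (1 / 2 : ℂ)‖ = (2 * |t|)⁻¹ ^ (1 / 2 : ℝ) := by
    have e1 : (1 / 2 : ℂ) = ((1 / 2 : ℝ) : ℂ) := by push_cast; ring
    rw [e1, norm_cpow_real]
    congr 1
    rw [norm_div, norm_I, norm_mul, norm_real, Real.norm_eq_abs]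
    simp
  rw [h1, Real.rpow_neg htp.le, ← Real.inv_rpow htp.le]
  apply Real.rpow_le_rpow (by positivity) _ (by norm_num)
  apply inv_anti₀ htp
  linarith

/-- **the representation of the Fresnel transform** -/
lemma Aw_rep {w : ℝ → ℂ} (h : Win w) (t : ℝ) (ht : t ≠ 0) (s : ℝ) :
    Aw w t s = ∫ η, ga t * wh w η * ec (-(η ^ 2 / (4 * t))) * ec (s * η) := by
  set b0 : ℂ := I / (2 * t) with hb0
  have htc : (t : ℂ) ≠ 0 := by exact_mod_cast ht
  have hb0n : b0 ≠ 0 := by
    rw [hb0]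
    exact div_ne_zero I_ne_zero (mul_ne_zero two_ne_zero htc)
  have hb0r : b0.re = 0 := by
    have : b0 = ((1 / (2 * t) : ℝ) : ℂ) * I := by
      rw [hb0]
      push_cast
      field_simp
    rw [this, re_ofReal_mul, I_re, mul_zero]
  have hb0i : b0.im ≠ 0 := by
    intro hc
    exact hb0n (Complex.ext hb0r hc)
  have hlim : Tendsto (fun ε : ℝ => (ε : ℂ) + b0) (𝓝[>] 0) (𝓝 b0) := by
    have h1 : Tendsto (fun ε : ℝ => (ε : ℂ) + b0) (𝓝 0) (𝓝 (((0 : ℝ) : ℂ) + b0)) :=
      (continuous_ofReal.add continuous_const).tendsto 0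
    rw [ofReal_zero, zero_add] at h1
    exact h1.mono_left nhdsWithin_le_nhds
  -- right side
  have hR : Tendsto (fun ε : ℝ => ∫ η : ℝ, wh w η * cexp (-Real.pi * ((ε : ℂ) + b0) * (η : ℂ) ^ 2 +
      2 * Real.pi * (I * s) * η)) (𝓝[>] 0)
      (𝓝 (∫ η : ℝ, wh w η * cexp (-Real.pi * b0 * (η : ℂ) ^ 2 + 2 * Real.pi * (I * s) * η))) := by
    apply tendsto_integral_filter_of_dominated_convergence (fun η => ‖wh w η‖)
    · exact Eventually.of_forall fun ε => ((wh_cont h).mul (by fun_prop)).aestronglyMeasurable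
    · filter_upwards [self_mem_nhdsWithin] with ε hε
      refine ae_of_all _ fun η => ?_
      rw [norm_mul, norm_exp]
      have hre : (-Real.pi * ((ε : ℂ) + b0) * (η : ℂ) ^ 2 + 2 * Real.pi * (I * s) * η).re =
          -(Real.pi * ε * η ^ 2) := by
        have e1 : -(Real.pi : ℂ) * ((ε : ℂ) + b0) * (η : ℂ) ^ 2 =
            ((-(Real.pi * η ^ 2) : ℝ) : ℂ) * ((ε : ℂ) + b0) := by push_cast; ring
        have e2 : 2 * (Real.pi : ℂ) * (I * s) * η = ((2 * Real.pi * s * η : ℝ) : ℂ) * I := by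
          push_cast; ring
        rw [add_re, e1, e2, re_ofReal_mul, re_ofReal_mul, I_re, add_re, ofReal_re, hb0r]
        ring
      rw [hre]
      have : Real.exp (-(Real.pi * ε * η ^ 2)) ≤ 1 := by
        rw [Real.exp_le_one_iff]
        have := Real.pi_pos
        have : 0 < ε := hε
        have : 0 ≤ Real.pi * ε * η ^ 2 := by positivity
        linarith
      exact mul_le_of_le_one_right (norm_nonneg _) this
    · exact (wh_int h).norm
    · refine ae_of_all _ fun η => ?_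
      apply Tendsto.const_mul
      apply (Complex.continuous_exp.tendsto _).comp
      exact ((hlim.const_mul _).mul_const _).add_const _
  -- left side
  have hL : Tendsto (fun ε : ℝ => (1 / ((ε : ℂ) + b0) ^ (1 / 2 : ℂ)) * ∫ v : ℝ, w v *
      cexp (-(Real.pi / ((ε : ℂ) + b0)) * ((v : ℂ) - s) ^ 2)) (𝓝[>] 0)
      (𝓝 ((1 / b0 ^ (1 / 2 : ℂ)) * ∫ v : ℝ, w v * cexp (-(Real.pi / b0) * ((v : ℂ) - s) ^ 2))) := by
    apply Tendsto.mul
    · apply Tendsto.div tendsto_const_nhds
      · have hc : ContinuousAt (fun z : ℂ => z ^ (1 / 2 : ℂ)) b0 :=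
          continuousAt_cpow_const (Or.inr hb0i)
        exact hc.tendsto.comp hlim
      · rw [Ne, cpow_eq_zero_iff]
        exact fun hc => hb0n hc.1
    · apply tendsto_integral_filter_of_dominated_convergence (fun v => ‖w v‖)
      · exact Eventually.of_forall fun ε => (h.cont.mul (by fun_prop)).aestronglyMeasurable
      · filter_upwards [self_mem_nhdsWithin] with ε hε
        refine ae_of_all _ fun v => ?_
        rw [norm_mul, norm_exp]
        have hre : (-(Real.pi / ((ε : ℂ) + b0)) * ((v : ℂ) - s) ^ 2).re ≤ 0 := by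
          have e1 : -((Real.pi : ℂ) / ((ε : ℂ) + b0)) * ((v : ℂ) - s) ^ 2 =
            ((-(Real.pi * (v - s) ^ 2) : ℝ) : ℂ) * (((ε : ℂ) + b0))⁻¹ := by
            push_cast
            ring
          rw [e1, re_ofReal_mul, inv_re, add_re, ofReal_re, hb0r, add_zero]
          have : 0 < ε := hε
          have h3 : 0 ≤ ε / normSq ((ε : ℂ) + b0) := div_nonneg this.le (normSq_nonneg _)
          have := Real.pi_pos
          have h4 : 0 ≤ Real.pi * (v - s) ^ 2 := by positivity
          nlinarith [mul_nonneg h4 h3]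
        have : Real.exp (-(Real.pi / ((ε : ℂ) + b0)) * ((v : ℂ) - s) ^ 2).re ≤ 1 := by
          rwa [Real.exp_le_one_iff]
        exact mul_le_of_le_one_right (norm_nonneg _) this
      · exact h.int.norm
      · refine ae_of_all _ fun v => ?_
        apply Tendsto.const_mul
        apply (Complex.continuous_exp.tendsto _).comp
        apply Tendsto.mul_const
        apply Tendsto.neg
        exact Tendsto.div tendsto_const_nhds hlim hb0n
  have hE : ∀ᶠ ε : ℝ in 𝓝[>] 0, (1 / ((ε : ℂ) + b0) ^ (1 / 2 : ℂ)) * ∫ v : ℝ, w v *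
      cexp (-(Real.pi / ((ε : ℂ) + b0)) * ((v : ℂ) - s) ^ 2) =
      ∫ η : ℝ, wh w η * cexp (-Real.pi * ((ε : ℂ) + b0) * (η : ℂ) ^ 2 +
      2 * Real.pi * (I * s) * η) := by
    filter_upwards [self_mem_nhdsWithin] with ε hε
    refine gauss_id h _ ?_ s
    rw [add_re, ofReal_re, hb0r, add_zero]
    exact hε
  have h3 := tendsto_nhds_unique (hL.congr' hE) hR
  have h4 : b0 ^ (1 / 2 : ℂ) ≠ 0 := by
    rw [Ne, cpow_eq_zero_iff]
    exact fun hc => hb0n hc.1
  have h5 : Aw w t s = ∫ v : ℝ, w v * cexp (-(Real.pi / b0) * ((v : ℂ) - s) ^ 2) := by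
    unfold Aw
    congr 1
    ext v
    congr 1
    unfold ec
    congr 1
    rw [hb0]
    push_cast
    field_simp
    ring_nf
    simp only [I_sq]
    ring
  rw [h5]
  have h6 : ∫ v : ℝ, w v * cexp (-(Real.pi / b0) * ((v : ℂ) - s) ^ 2) = b0 ^ (1 / 2 : ℂ) *
      ∫ η : ℝ, wh w η * cexp (-Real.pi * b0 * (η : ℂ) ^ 2 + 2 * Real.pi * (I * s) * η) := by
    rw [← h3]
    field_simp
  rw [h6, ← integral_const_mul]
  congr 1
  ext η
  have e7 : cexp (-Real.pi * b0 * (η : ℂ) ^ 2 + 2 * Real.pi * (I * s) * η) =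
      ec (-(η ^ 2 / (4 * t))) * ec (s * η) := by
    rw [← ec_add]
    unfold ec
    congr 1
    rw [hb0]
    push_cast
    field_simp
    ring
  rw [e7]
  unfold ga
  rw [hb0]
  ring

/-- the recursion -/
lemma Aw_rec {w : ℝ → ℂ} (h : Win w) (t : ℝ) (ht : t ≠ 0) (s : ℝ) :
    (s : ℂ) * Aw w t s = Aw (fun v => (v : ℂ) * w v) t s +
      (1 / (4 * Real.pi * I * t)) * Aw (deriv w) t s := by
  have htc : (t : ℂ) ≠ 0 := by exact_mod_cast ht
  have hd : ∀ v : ℝ, HasDerivAt (fun v : ℝ => ec (t * (v - s) ^ 2))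
      (4 * Real.pi * I * t * ((v : ℂ) - s) * ec (t * (v - s) ^ 2)) v := by
    intro v
    unfold ec
    have h1 : HasDerivAt (fun v : ℝ => 2 * (Real.pi : ℂ) * I * ((t * (v - s) ^ 2 : ℝ) : ℂ))
        (4 * Real.pi * I * t * ((v : ℂ) - s)) v := by
      have h2 : HasDerivAt (fun v : ℝ => t * (v - s) ^ 2) (t * (2 * (v - s))) v := by
        have h3 := (((hasDerivAt_id v).sub_const s).pow 2).const_mul t
        simpa using h3
      have h4 := (h2.ofReal_comp).const_mul (2 * (Real.pi : ℂ) * I)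
      convert! h4 using 1
      push_cast
      ring
    convert! h1.cexp using 1
    ring
  have hE : Continuous (fun v : ℝ => ec (t * (v - s) ^ 2)) := ec_cont.comp (by fun_prop)
  have hw' := h.der
  have hdw : ∀ v : ℝ, HasDerivAt w (deriv w v) v := fun v =>
    ((h.sm.differentiable (by simp)) v).hasDerivAt
  have hI1 : Integrable (w * fun v : ℝ => 4 * Real.pi * I * t * ((v : ℂ) - s) *
      ec (t * (v - s) ^ 2)) := by
    apply Continuous.integrable_of_hasCompactSupport
    · exact h.cont.mul (Continuous.mul (by fun_prop) hE)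
    · exact h.cp.mul_right
  have hI2 : Integrable (deriv w * fun v : ℝ => ec (t * (v - s) ^ 2)) := by
    apply Continuous.integrable_of_hasCompactSupport
    · exact hw'.cont.mul hE
    · exact hw'.cp.mul_right
  have hI3 : Integrable (w * fun v : ℝ => ec (t * (v - s) ^ 2)) := by
    apply Continuous.integrable_of_hasCompactSupport
    · exact h.cont.mul hE
    · exact h.cp.mul_right
  have hI4 : Integrable (fun v : ℝ => (v : ℂ) * w v * ec (t * (v - s) ^ 2)) := by
    apply Continuous.integrable_of_hasCompactSupport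
    · exact (h.mulX.cont).mul hE
    · exact h.mulX.cp.mul_right
  have h1 := integral_mul_deriv_eq_deriv_mul_of_integrable (u := w) (u' := deriv w)
    (v := fun v : ℝ => ec (t * (v - s) ^ 2))
    (v' := fun v : ℝ => 4 * Real.pi * I * t * ((v : ℂ) - s) * ec (t * (v - s) ^ 2))
    (fun v _ => hdw v) (fun v _ => hd v) hI1 hI2 hI3
  have h2 : ∫ v : ℝ, w v * (4 * Real.pi * I * t * ((v : ℂ) - s) * ec (t * (v - s) ^ 2)) =
      4 * Real.pi * I * t * (Aw (fun v => (v : ℂ) * w v) t s - s * Aw w t s) := by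
    have hI5 : Integrable (fun v : ℝ => (s : ℂ) * (w v * ec (t * (v - s) ^ 2))) :=
      Integrable.const_mul hI3 _
    have e1 : Aw (fun v => (v : ℂ) * w v) t s - s * Aw w t s =
        ∫ v : ℝ, ((v : ℂ) * w v * ec (t * (v - s) ^ 2) - (s : ℂ) * (w v * ec (t * (v - s) ^ 2))) := by
      unfold Aw
      rw [← integral_const_mul]
      exact (integral_sub hI4 hI5).symm
    rw [e1, ← integral_const_mul]
    congr 1
    ext v
    ring
  have hpi : (Real.pi : ℂ) ≠ 0 := by exact_mod_cast Real.pi_ne_zero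
  rw [h2] at h1
  have h3 : Aw (deriv w) t s = ∫ v, deriv w v * ec (t * (v - s) ^ 2) := rfl
  rw [← h3] at h1
  have h4 : Aw (deriv w) t s =
      4 * Real.pi * I * t * (s * Aw w t s - Aw (fun v => (v : ℂ) * w v) t s) := by
    rw [← neg_eq_iff_eq_neg] at h1
    rw [← h1]
    ring
  rw [h4]
  field_simp
  ring

end Pool.Agent.Q89.LF
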